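import Mathlib
import Pool.Agent.H554R2.Sem.Defs
import Pool.Agent.H554R2.Coin.Defs
import Pool.Agent.H554R2.Cnf.SatDefs

/-!
# Path systems as Boolean inputs: definitions
-/

set_option autoImplicit false

open Finset

namespace Pool.Agent.H538R4.SP

open Pool.Agent.H554R2.Sem Pool.Agent.H554R2.Coin Pool.Agent.H554R2.Cnf

/-- The bits of a path system which is given by `M` records.  The names of the nodes are words of
`ℓ + 1` bits.  The record `c` consists of five names: the names of the nodes `x, y, z` of a triple
`(x, y, z)` (positions `0, 1, 2`), the name of a source node (position `3`) and the name of a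
terminal node (position `4`); the bit `(c, r, j)` is the bit `j` of the name in position `r`. -/
abbrev SPBits (M ℓ : ℕ) : Type := Fin M × Fin 5 × Fin (ℓ + 1)

/-- The name in position `r` of the record `c`. -/
def name {M ℓ : ℕ} (w : SPBits M ℓ → Bool) (c : Fin M) (r : Fin 5) : Fin (ℓ + 1) → Bool :=
  fun j => w (c, r, j)

/-- The admissible nodes of the path system `w`: the terminal nodes, and all `x` for which there is
a triple `(x, y, z)` with admissible `y` and `z`. -/
inductive Adm {M ℓ : ℕ} (w : SPBits M ℓ → Bool) : (Fin (ℓ + 1) → Bool) → Prop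
  | terminal (c : Fin M) : Adm w (name w c 4)
  | step (c : Fin M) : Adm w (name w c 1) → Adm w (name w c 2) → Adm w (name w c 0)

/-- Some source node is admissible. -/
def Solvable {M ℓ : ℕ} (w : SPBits M ℓ → Bool) : Prop := ∃ c : Fin M, Adm w (name w c 3)

/-- The first bit of the head (the node `x`) of the triple `c`. -/
def headBit {M ℓ : ℕ} (c : Fin M) : SPBits M ℓ := (c, 0, 0)

end Pool.Agent.H538R4.SP
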