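import Mathlib
import Pool.Agent.H554R2.Cnf.SatMain
import Pool.Agent.H554R2.Lin.Final

/-!
# Transfer of the lower bounds for CNF formulas to other problems
-/

set_option autoImplicit false

open Finset

namespace Pool.Agent.H538R4.SP

open Pool.Agent.H554R2.Sem Pool.Agent.H554R2.Coin Pool.Agent.H554R2.Cnf

/-- Along `l` at most `k` of the variables `p i` are queried more than once, or at most `n + k`
queries of these variables are made. -/
def FewRereads {V : Type} [BEq V] [LawfulBEq V] {n : ℕ} (p : Fin n → V) (k : ℕ) (P : NBP V)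
    (l : List P.State) : Prop :=
  (univ.filter (fun i => 2 ≤ (l.filterMap P.query).count (p i))).card ≤ k ∨
    ∑ i, (l.filterMap P.query).count (p i) ≤ n + k

theorem genNBP : ∃ D : ℕ, 0 < D ∧ ∀ (V : Type) [BEq V] [LawfulBEq V] (Sol : (V → Bool) → Prop)
    (n : ℕ) (p : Fin n → V), Function.Injective p →
    (∀ F : Finset (Finset (Fin n × Bool)), (∀ c ∈ F, c.card ≤ D) → F.card ≤ D * n →
      ∃ b : V → Bool, ∀ x : Pt n, Sol (plug p b x) ↔ Models F x) →
    ∀ q : ℕ, q ≤ n / D → ∃ b : V → Bool, ∀ P : NBP V,
      (∀ (x : Pt n) l, P.Accepting (plug p b x) l → Sol (plug p b x)) →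
      Nat.card {x : Pt n // Sol (plug p b x)} ≤ 2 ^ q *
        Nat.card {x : Pt n // ∃ l, P.Accepting (plug p b x) l ∧ FewRereads p q P l} →
      2 ^ q ≤ Fintype.card P.State := by
  classical
  obtain ⟨k, C, n0, hkC⟩ := mainStrong
  refine ⟨10 ^ 50 + n0 + k + C, by positivity, fun V _ _ Sol n p hp hred q hq => ?_⟩
  set D := 10 ^ 50 + n0 + k + C with hD
  have hD50 : 10 ^ 50 ≤ D := by omega
  have hDn0 : n0 ≤ D := by omega
  rcases Nat.eq_zero_or_pos (n / D) with h0 | h0
  · have : q = 0 := by omega
    rw [this]
    exact ⟨fun _ => true, fun P _ _ => Fintype.card_pos_iff.2 ⟨P.start⟩⟩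
  · have h2 : D ≤ n := by
      by_contra hlt
      rw [Nat.div_eq_of_lt (by omega)] at h0
      omega
    have h4 : q ≤ n / 10 ^ 8 := hq.trans
      (Nat.div_le_div_left (le_trans (by norm_num) hD50) (by norm_num))
    obtain ⟨F, hF1, hF2, hF3⟩ := hkC n (hDn0.trans h2)
    obtain ⟨b, hx⟩ := hred F (fun c hc => (hF2 c hc).trans (by omega))
      (hF1.trans (Nat.mul_le_mul_right _ (by omega)))
    refine ⟨b, fun P hP hl => ?_⟩
    have hcount : ∀ (l : List P.State) (i : Fin n),
        (l.filterMap (fun s => xvar ((toW p P).query s))).count i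
        = (l.filterMap P.query).count (p i) := fun l i => toW_count _ hp P l i
    have hfast : ∀ x, (∃ l, P.Accepting (plug p b x) l ∧ FewRereads p q P l) →
        x ∈ fastPts (toW p P) b (n / 10 ^ 8) := by
      rintro x ⟨l, hacc, hl⟩
      unfold fastPts
      rw [mem_filter]
      refine ⟨mem_univ _, l, (toW_acc _ hp P b x l).2 hacc, ?_⟩
      rcases hl with h | h
      · left
        refine le_trans (le_of_eq ?_) (h.trans h4)
        unfold reread
        congr 1
        ext i
        rw [mem_filter, mem_filter, hcount]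
      · right
        have e1 : (l.filterMap (fun s => xvar ((toW p P).query s))).length
            = ∑ i, (l.filterMap (fun s => xvar ((toW p P).query s))).count i :=
          (length_eq_sum _).symm
        rw [e1]
        have e2 : ∑ i, (l.filterMap (fun s => xvar ((toW p P).query s))).count i
            = ∑ i, (l.filterMap P.query).count (p i) :=
          Finset.sum_congr rfl (fun i _ => hcount l i)
        rw [e2]
        omega
    have h9 := hF3 V b (toW p P) (fun x l h => by
      rw [← hx x]
      exact hP x l ((toW_acc _ hp P b x l).1 h)) (by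
      have e3 : Nat.card {x // Models F x} = Nat.card {x // Sol (plug p b x)} :=
        Nat.card_congr (Equiv.subtypeEquivRight (fun x => (hx x).symm))
      rw [e3]
      refine hl.trans ?_
      refine Nat.mul_le_mul (Nat.pow_le_pow_right (by norm_num) h4) ?_
      rw [Nat.card_eq_fintype_card, Fintype.card_subtype]
      refine card_le_card (fun x hx' => ?_)
      exact hfast x (mem_filter.1 hx').2)
    exact (Nat.pow_le_pow_right (by norm_num) h4).trans h9

end Pool.Agent.H538R4.SP
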