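import Mathlib
import Pool.Agent.H538R4.SP.Defs

/-!
# Evaluation of a CNF as an instance of the solvable path problem
-/

set_option autoImplicit false

open Finset

namespace Pool.Agent.H538R4.SP

open Pool.Agent.H554R2.Sem Pool.Agent.H554R2.Coin Pool.Agent.H554R2.Cnf

section

variable {n J M ℓ : ℕ} (cl : Fin J → Finset (Fin n × Bool))

/-- The nodes: the literals, the clauses, and the initial segments of the list of clauses. -/
abbrev Nd (n J : ℕ) : Type := (Fin n × Bool) ⊕ (Fin J ⊕ Fin (J + 1))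

/-- The triples which do not depend on the point, except the first one. -/
abbrev Rc : Type := Unit ⊕ ((Σ j : Fin J, {l // l ∈ cl j}) ⊕ Fin J)

/-- The triples. -/
def trip (x : Pt n) : Fin n ⊕ Rc cl → Nd n J × Nd n J × Nd n J
  | Sum.inl i => (Sum.inl (i, x i), Sum.inr (Sum.inr 0), Sum.inr (Sum.inr 0))
  | Sum.inr (Sum.inl _) => (Sum.inr (Sum.inr 0), Sum.inr (Sum.inr 0), Sum.inr (Sum.inr 0))
  | Sum.inr (Sum.inr (Sum.inl ⟨j, l⟩)) => (Sum.inr (Sum.inl j), Sum.inl l.1, Sum.inl l.1)
  | Sum.inr (Sum.inr (Sum.inr j)) =>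
      (Sum.inr (Sum.inr j.succ), Sum.inr (Sum.inr j.castSucc), Sum.inr (Sum.inl j))

/-- The records. -/
def recd (x : Pt n) (z : Fin n ⊕ Rc cl) (r : Fin 5) : Nd n J :=
  if r = 0 then (trip cl x z).1 else if r = 1 then (trip cl x z).2.1
  else if r = 2 then (trip cl x z).2.2 else if r = 3 then Sum.inr (Sum.inr (Fin.last J))
  else Sum.inr (Sum.inr 0)

/-- The nodes which should be admissible. -/
def Good (x : Pt n) : Nd n J → Prop
  | Sum.inl l => x l.1 = l.2
  | Sum.inr (Sum.inl j) => Sat (cl j) x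
  | Sum.inr (Sum.inr j) => ∀ j' : Fin J, j'.castSucc < j → Sat (cl j') x

theorem good_step (x : Pt n) (z : Fin n ⊕ Rc cl) (h1 : Good cl x (trip cl x z).2.1)
    (h2 : Good cl x (trip cl x z).2.2) : Good cl x (trip cl x z).1 := by
  rcases z with i | _ | ⟨j, l⟩ | j
  · exact rfl
  · exact h1
  · exact ⟨l.1, l.2, h1⟩
  · intro j' hj'
    rcases lt_or_eq_of_le (Fin.le_castSucc_iff.2 hj' : j'.castSucc ≤ j.castSucc) with h | h
    · exact h1 j' h
    · have : j' = j := Fin.castSucc_injective _ h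
      rw [this]
      exact h2

theorem core (x : Pt n) (w : SPBits M ℓ → Bool) (nm : Nd n J → Fin (ℓ + 1) → Bool)
    (hnm : Function.Injective nm) (ie : Fin M → Fin n ⊕ Rc cl) (hie : Function.Surjective ie)
    (hw : ∀ c r, name w c r = nm (recd cl x (ie c) r)) :
    Solvable w ↔ ∀ j, Sat (cl j) x := by
  have h0 : ∀ c, name w c 0 = nm (trip cl x (ie c)).1 := fun c => hw c 0
  have h1 : ∀ c, name w c 1 = nm (trip cl x (ie c)).2.1 := fun c => hw c 1
  have h2 : ∀ c, name w c 2 = nm (trip cl x (ie c)).2.2 := fun c => hw c 2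
  have h3 : ∀ c, name w c 3 = nm (Sum.inr (Sum.inr (Fin.last J))) := fun c => hw c 3
  have h4 : ∀ c, name w c 4 = nm (Sum.inr (Sum.inr 0)) := fun c => hw c 4
  have hA : ∀ v, Adm w v → ∃ nd, v = nm nd ∧ Good cl x nd := by
    intro v hv
    induction hv with
    | terminal c =>
      refine ⟨_, h4 c, ?_⟩
      intro j' hj'
      exact absurd hj' (Fin.not_lt_zero _)
    | step c _ _ ih1 ih2 =>
      obtain ⟨nd1, e1, g1⟩ := ih1
      obtain ⟨nd2, e2, g2⟩ := ih2
      rw [h1] at e1
      rw [h2] at e2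
      refine ⟨_, h0 c, good_step cl x (ie c) ?_ ?_⟩
      · rw [hnm e1]
        exact g1
      · rw [hnm e2]
        exact g2
  obtain ⟨c0, -⟩ := hie (Sum.inr (Sum.inl ()))
  have hT : Adm w (nm (Sum.inr (Sum.inr 0))) := by
    rw [← h4 c0]
    exact Adm.terminal c0
  have hS : ∀ z, Adm w (nm (trip cl x z).2.1) → Adm w (nm (trip cl x z).2.2) →
      Adm w (nm (trip cl x z).1) := by
    intro z g1 g2
    obtain ⟨c, rfl⟩ := hie z
    rw [← h0 c]
    refine Adm.step c ?_ ?_
    · rw [h1 c]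
      exact g1
    · rw [h2 c]
      exact g2
  have hL : ∀ l : Fin n × Bool, x l.1 = l.2 → Adm w (nm (Sum.inl l)) := by
    rintro ⟨i, o⟩ hl
    have := hS (Sum.inl i) hT hT
    have e : (trip cl x (Sum.inl i)).1 = Sum.inl (i, o) := by
      simp only [trip]
      rw [hl]
    rw [← e]
    exact this
  have hC : ∀ j : Fin J, Sat (cl j) x → Adm w (nm (Sum.inr (Sum.inl j))) := by
    rintro j ⟨l, hl1, hl2⟩
    exact hS (Sum.inr (Sum.inr (Sum.inl ⟨j, l, hl1⟩))) (hL l hl2) (hL l hl2)
  have hI : (∀ j, Sat (cl j) x) → ∀ j : Fin (J + 1), Adm w (nm (Sum.inr (Sum.inr j))) := by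
    intro h j
    induction j using Fin.induction with
    | zero => exact hT
    | succ j ih => exact hS (Sum.inr (Sum.inr (Sum.inr j))) ih (hC j (h j))
  constructor
  · rintro ⟨c, hc⟩
    rw [h3] at hc
    obtain ⟨nd, e, g⟩ := hA _ hc
    rw [← hnm e] at g
    intro j
    exact g j (Fin.castSucc_lt_last j)
  · intro h
    refine ⟨c0, ?_⟩
    rw [h3]
    exact hI h _

end

theorem headBit_inj {M ℓ : ℕ} : Function.Injective (headBit (M := M) (ℓ := ℓ)) := by
  intro a b h
  exact congrArg Prod.fst h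

theorem reduction {n M ℓ D : ℕ} (F : Finset (Finset (Fin n × Bool))) (hF : ∀ c ∈ F, c.card ≤ D)
    (a : Fin n ↪ Fin M) (hM : n + 1 + (D + 2) * F.card ≤ M)
    (hℓ : n + 1 + (D + 2) * F.card ≤ 2 ^ ℓ) :
    ∃ b : SPBits M ℓ → Bool, ∀ x : Pt n,
      Solvable (plug (fun i => headBit (a i)) b x) ↔ Models F x := by
  classical
  obtain ⟨J, hJ⟩ : ∃ J, J = F.card := ⟨_, rfl⟩
  obtain ⟨cl, hcl1, hcl2⟩ : ∃ cl : Fin J → Finset (Fin n × Bool), (∀ j, cl j ∈ F) ∧
      ∀ c ∈ F, ∃ j, cl j = c := by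
    subst hJ
    refine ⟨fun j => (F.equivFin.symm j).1, fun j => (F.equivFin.symm j).2, fun c hc => ?_⟩
    exact ⟨F.equivFin ⟨c, hc⟩, by simp⟩
  have hcardR : Fintype.card (Rc cl) ≤ 1 + (D + 1) * J := by
    simp only [Fintype.card_sum, Fintype.card_unit, Fintype.card_sigma, Fintype.card_coe,
      Fintype.card_fin]
    have : ∑ j, (cl j).card ≤ D * J := by
      calc ∑ j, (cl j).card ≤ ∑ _j : Fin J, D := Finset.sum_le_sum (fun j _ => hF _ (hcl1 j))
        _ = D * J := by simp [mul_comm]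
    calc 1 + (∑ j, (cl j).card + J) ≤ 1 + (D * J + J) := by omega
      _ = 1 + (D + 1) * J := by ring
  have e1 : (D + 2) * J = (D + 1) * J + J := by ring
  rw [← hJ] at hM hℓ
  have hcard1 : Fintype.card (Rc cl) ≤ Fintype.card {c : Fin M // c ∉ univ.map a} := by
    rw [Fintype.card_subtype]
    have h2 : (univ.filter (fun c : Fin M => c ∉ univ.map a)) = (univ.map a)ᶜ := by
      ext c
      simp
    rw [h2, Finset.card_compl, Finset.card_map, Finset.card_univ, Fintype.card_fin,
      Fintype.card_fin]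
    omega
  obtain ⟨f⟩ := Function.Embedding.nonempty_of_card_le hcard1
  have hcard2 : Fintype.card (Fin n ⊕ (Fin J ⊕ Fin (J + 1))) ≤ Fintype.card (Fin ℓ → Bool) := by
    simp only [Fintype.card_sum, Fintype.card_fin, Fintype.card_fun, Fintype.card_bool]
    have e2 : (D + 1) * J = D * J + J := by ring
    omega
  obtain ⟨g⟩ := Function.Embedding.nonempty_of_card_le hcard2
  obtain ⟨nm, hnm1, hnm2⟩ : ∃ nm : Nd n J → Fin (ℓ + 1) → Bool,
      (∀ i o, nm (Sum.inl (i, o)) = Fin.cons o (g (Sum.inl i))) ∧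
      (∀ y, nm (Sum.inr y) = Fin.cons false (g (Sum.inr y))) :=
    ⟨fun nd => match nd with
      | Sum.inl (i, o) => Fin.cons o (g (Sum.inl i))
      | Sum.inr y => Fin.cons false (g (Sum.inr y)), fun _ _ => rfl, fun _ => rfl⟩
  have hnm : Function.Injective nm := by
    rintro (⟨i, o⟩ | y) (⟨i', o'⟩ | y') h
    · rw [hnm1, hnm1] at h
      obtain ⟨h1, h2⟩ := Fin.cons_inj.1 h
      have h3 := Sum.inl_injective (g.injective h2)
      rw [h1, h3]
    · rw [hnm1, hnm2] at h
      obtain ⟨-, h2⟩ := Fin.cons_inj.1 h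
      exact absurd (g.injective h2) (by simp)
    · rw [hnm1, hnm2] at h
      obtain ⟨-, h2⟩ := Fin.cons_inj.1 h
      exact absurd (g.injective h2) (by simp)
    · rw [hnm2, hnm2] at h
      obtain ⟨-, h2⟩ := Fin.cons_inj.1 h
      exact congrArg Sum.inr (Sum.inr_injective (g.injective h2))
  obtain ⟨ie, hie1, hie2, hie3⟩ : ∃ ie : Fin M → Fin n ⊕ Rc cl, (∀ i, ie (a i) = Sum.inl i) ∧
      (∀ r, ie (f r) = Sum.inr r) ∧ ∀ c i, ie c = Sum.inl i → c = a i := by
    refine ⟨fun c => if h : ∃ i, a i = c then Sum.inl h.choose else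
      if h' : ∃ r, (f r : Fin M) = c then Sum.inr h'.choose else Sum.inr (Sum.inl ()), ?_, ?_, ?_⟩
    · intro i
      have h : ∃ i', a i' = a i := ⟨i, rfl⟩
      simp only [dif_pos h]
      exact congrArg Sum.inl (a.injective h.choose_spec)
    · intro r
      have h : ¬ ∃ i, a i = (f r : Fin M) := by
        rintro ⟨i, hi⟩
        exact (f r).2 (mem_map.2 ⟨i, mem_univ _, hi⟩)
      have h' : ∃ r', (f r' : Fin M) = f r := ⟨r, rfl⟩
      simp only [dif_neg h, dif_pos h']
      exact congrArg Sum.inr (f.injective (Subtype.ext h'.choose_spec))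
    · intro c i h
      by_cases hc : ∃ i', a i' = c
      · simp only [dif_pos hc] at h
        rw [← Sum.inl_injective h]
        exact hc.choose_spec.symm
      · simp only [dif_neg hc] at h
        split_ifs at h
  have hies : Function.Surjective ie := by
    rintro (i | r)
    · exact ⟨a i, hie1 i⟩
    · exact ⟨f r, hie2 r⟩
  obtain ⟨b, hb⟩ : ∃ b : SPBits M ℓ → Bool,
      ∀ c r j, b (c, r, j) = nm (recd cl (fun _ => false) (ie c) r) j :=
    ⟨fun v => nm (recd cl (fun _ => false) (ie v.1) v.2.1) v.2.2, fun _ _ _ => rfl⟩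
  have hp : Function.Injective (fun i => (headBit (a i) : SPBits M ℓ)) :=
    fun i j h => a.injective (headBit_inj h)
  refine ⟨b, fun x => ?_⟩
  have hmod : Models F x ↔ ∀ j, Sat (cl j) x := by
    constructor
    · intro h j
      exact h _ (hcl1 j)
    · intro h c hc
      obtain ⟨j, rfl⟩ := hcl2 c hc
      exact h j
  rw [hmod]
  refine core cl x _ nm hnm ie hies ?_
  intro c r
  funext j
  change plug (fun i => headBit (a i)) b x (c, r, j) = nm (recd cl x (ie c) r) j
  by_cases h : ∃ i, headBit (a i) = (c, r, j)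
  · obtain ⟨i, hi⟩ := h
    rw [← hi, plug_apply (fun i => (headBit (a i) : SPBits M ℓ)) hp b x i]
    unfold headBit at hi
    obtain ⟨hc, hrj⟩ := Prod.mk.inj hi
    obtain ⟨hr, hj⟩ := Prod.mk.inj hrj
    subst hc
    subst hr
    subst hj
    rw [hie1]
    have e : recd cl x (Sum.inl i) 0 = Sum.inl (i, x i) := rfl
    rw [e, hnm1]
    rfl
  · push Not at h
    rw [plug_other (fun i => (headBit (a i) : SPBits M ℓ)) b x (c, r, j) h, hb]
    by_cases hr : r = 0
    · subst hr
      cases hc : ie c with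
      | inl i =>
        have hca := hie3 c i hc
        have hj : j ≠ 0 := by
          rintro rfl
          exact h i (by rw [hca]; rfl)
        have e : recd cl x (Sum.inl i) 0 = Sum.inl (i, x i) := rfl
        have e' : recd cl (fun _ => false) (Sum.inl i) 0 = Sum.inl (i, false) := rfl
        rw [e, e', hnm1, hnm1]
        obtain ⟨j', rfl⟩ := Fin.exists_succ_eq.2 hj
        rw [Fin.cons_succ, Fin.cons_succ]
      | inr r =>
        rcases r with _ | ⟨j', l⟩ | j' <;> rfl
    · have e : recd cl x (ie c) r = recd cl (fun _ => false) (ie c) r := by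
        unfold recd
        rw [if_neg hr, if_neg hr]
        cases hc : ie c with
        | inl i => rfl
        | inr r' => rcases r' with _ | ⟨j', l⟩ | j' <;> rfl
      rw [e]

end Pool.Agent.H538R4.SP
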