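import Mathlib
import Pool.Agent.H538R4.SP.Red
import Pool.Agent.H538R4.SP.Gen
import Pool.Agent.H538R4.SP.GenBP

/-!
# The solvable path problem is hard for branching programs
-/

set_option autoImplicit false

open Finset

namespace Pool.Agent.H538R4.SP

open Pool.Agent.H554R2.Sem Pool.Agent.H554R2.Coin Pool.Agent.H554R2.Cnf

/-- The reduction, for all formulas of bounded width and linear size. -/
theorem red_all (E : ℕ) : ∃ D : ℕ, 0 < D ∧ E ≤ D ∧ ∀ (n M ℓ : ℕ) (a : Fin n ↪ Fin M), 0 < n →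
    D * n ≤ M → D * n ≤ 2 ^ ℓ → ∀ F : Finset (Finset (Fin n × Bool)),
      (∀ c ∈ F, c.card ≤ E) → F.card ≤ E * n → ∃ b : SPBits M ℓ → Bool, ∀ x : Pt n,
        Solvable (plug (fun i => headBit (a i)) b x) ↔ Models F x := by
  refine ⟨(E + 2) * (E + 2), by positivity, by nlinarith, fun n M ℓ a hpos hM hℓ F hF hFc => ?_⟩
  have h3 : n + 1 + (E + 2) * F.card ≤ (E + 2) * (E + 2) * n := by
    have h4 : (E + 2) * F.card ≤ (E + 2) * (E * n) := Nat.mul_le_mul_left _ hFc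
    have h5 : (E + 2) * (E + 2) * n = (E + 2) * (E * n) + (E + 2) * (2 * n) := by ring
    have h6 : n + 1 ≤ (E + 2) * (2 * n) := by nlinarith
    omega
  exact reduction F hF a (h3.trans hM) (h3.trans hℓ)

theorem finalN : ∃ D : ℕ, 0 < D ∧ ∀ (n M ℓ : ℕ) (a : Fin n ↪ Fin M), D * n ≤ M →
    D * n ≤ 2 ^ ℓ → ∃ b : SPBits M ℓ → Bool, ∀ P : NBP (SPBits M ℓ),
      (∀ (x : Pt n) l, P.Accepting (plug (fun i => headBit (a i)) b x) l →
        Solvable (plug (fun i => headBit (a i)) b x)) →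
      Nat.card {x : Pt n // Solvable (plug (fun i => headBit (a i)) b x)} ≤ 2 ^ (n / D) *
        Nat.card {x : Pt n // ∃ l, P.Accepting (plug (fun i => headBit (a i)) b x) l ∧
          FewRereads (fun i => headBit (a i)) (n / D) P l} →
      2 ^ (n / D) ≤ Fintype.card P.State := by
  obtain ⟨D1, hD1, h1⟩ := genNBP
  obtain ⟨D, hD, hD1D, h2⟩ := red_all D1
  refine ⟨D, hD, fun n M ℓ a hM hℓ => ?_⟩
  rcases Nat.eq_zero_or_pos n with h0 | hpos
  · have h3 : n / D = 0 := by rw [h0]; simp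
    rw [h3]
    exact ⟨fun _ => true, fun P _ _ => Fintype.card_pos_iff.2 ⟨P.start⟩⟩
  have hp : Function.Injective (fun i => (headBit (a i) : SPBits M ℓ)) :=
    fun i j h => a.injective (headBit_inj h)
  exact h1 (SPBits M ℓ) Solvable n _ hp (h2 n M ℓ a hpos hM hℓ) (n / D)
    (Nat.div_le_div_left hD1D hD1)

theorem finalB (k : ℕ) : ∃ D : ℕ, 0 < D ∧ ∀ (n M ℓ : ℕ) (a : Fin n ↪ Fin M), D * n ≤ M →
    D * n ≤ 2 ^ ℓ → ∃ b : SPBits M ℓ → Bool, ∀ P : BP (SPBits M ℓ) Bool,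
      (∀ (x : Pt n) L, P.Comp (plug (fun i => headBit (a i)) b x) L true →
        Solvable (plug (fun i => headBit (a i)) b x)) →
      Nat.card {x : Pt n // Solvable (plug (fun i => headBit (a i)) b x)} ≤ 2 ^ (n / D) *
        Nat.card {x : Pt n // ∃ L, P.Comp (plug (fun i => headBit (a i)) b x) L true ∧
          ∑ i, L.count (headBit (a i)) ≤ k * n} →
      2 ^ (n / D) ≤ Fintype.card P.State := by
  obtain ⟨D1, hD1, h1⟩ := genBP k
  obtain ⟨D, hD, hD1D, h2⟩ := red_all D1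
  refine ⟨D, hD, fun n M ℓ a hM hℓ => ?_⟩
  rcases Nat.eq_zero_or_pos n with h0 | hpos
  · have h3 : n / D = 0 := by rw [h0]; simp
    rw [h3]
    exact ⟨fun _ => true, fun P _ _ => Fintype.card_pos_iff.2 ⟨P.start⟩⟩
  have hp : Function.Injective (fun i => (headBit (a i) : SPBits M ℓ)) :=
    fun i j h => a.injective (headBit_inj h)
  exact h1 (SPBits M ℓ) Solvable n _ hp (h2 n M ℓ a hpos hM hℓ) (n / D)
    (Nat.div_le_div_left hD1D hD1)

end Pool.Agent.H538R4.SP
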